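import Pool.Agent.H645Z.Box.Cocycle

set_option autoImplicit false

namespace Pool.Agent.H645Z.Box

/-- `M` is, modulo `K`, a lattice of rank `m` at scale `R` -/
def Good (S m : ℕ) {n : ℕ} (K M : Subgroup (FreeGroup (Fin n))) (R : ℕ) : Prop :=
  K ≤ M ∧ ∃ (e : FreeGroup (Fin n) → (Fin m → ℤ)) (a : Fin m → FreeGroup (Fin n)),
    (∀ x ∈ M, ∀ y ∈ M, e (x * y) = e x + e y) ∧ (∀ x ∈ M, e x = 0 ↔ x ∈ K) ∧
    (∀ i, a i ∈ M ∧ e (a i) = Pi.single i 1 ∧ (a i).norm ≤ S * ((2 * m + 1) * R)) ∧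
    ∀ x ∈ M, R * sup (e x) ≤ S * x.norm

section
variable {G : Type} [Group G] {V : Type} [AddCommGroup V] {M : Subgroup G} {φ : G → V}

theorem addOn_one (h : ∀ x ∈ M, ∀ y ∈ M, φ (x * y) = φ x + φ y) : φ 1 = 0 := by
  have := h 1 M.one_mem 1 M.one_mem
  simpa using this

theorem addOn_inv (h : ∀ x ∈ M, ∀ y ∈ M, φ (x * y) = φ x + φ y) {x : G} (hx : x ∈ M) :
    φ x⁻¹ = -φ x := by
  have := h x⁻¹ (M.inv_mem hx) x hx
  rw [inv_mul_cancel, addOn_one h] at this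
  exact eq_neg_of_add_eq_zero_left this.symm

theorem addOn_pow (h : ∀ x ∈ M, ∀ y ∈ M, φ (x * y) = φ x + φ y) {x : G} (hx : x ∈ M) (k : ℕ) :
    φ (x ^ k) = k • φ x := by
  induction k with
  | zero => simpa using addOn_one h
  | succ k ih => rw [pow_succ, h _ (M.pow_mem hx k) _ hx, ih, succ_nsmul]

/-- the ordered product of powers -/
def pw {m : ℕ} (a : Fin m → G) (c : Fin m → ℤ) : G := FreeGroup.lift a (wd c)

theorem pw_eq {m : ℕ} {a : Fin m → G} (ha : ∀ i, a i ∈ M) (c : Fin m → ℤ) :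
    pw a c = (FreeGroup.lift (fun i => (⟨a i, ha i⟩ : M)) (wd c) : M) := by
  have : M.subtype.comp (FreeGroup.lift (fun i => (⟨a i, ha i⟩ : M))) = FreeGroup.lift a := by
    apply FreeGroup.ext_hom
    intro i
    simp
  unfold pw
  rw [← this]
  rfl

theorem pw_mem {m : ℕ} {a : Fin m → G} (ha : ∀ i, a i ∈ M) (c : Fin m → ℤ) : pw a c ∈ M := by
  rw [pw_eq ha]
  exact Subtype.property _

theorem addOn_pw (h : ∀ x ∈ M, ∀ y ∈ M, φ (x * y) = φ x + φ y) {m : ℕ} {a : Fin m → G}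
    (ha : ∀ i, a i ∈ M) (c : Fin m → ℤ) : φ (pw a c) = ∑ j, c j • φ (a j) := by
  let ψ : M →* Multiplicative V := MonoidHom.mk' (fun x => Multiplicative.ofAdd (φ x)) (by
    intro x y
    rw [← ofAdd_add, ← h x x.2 y y.2]
    rfl)
  have := map_wd (ψ.comp (FreeGroup.lift (fun i => (⟨a i, ha i⟩ : M)))) c
  rw [pw_eq ha]
  have h2 := congrArg Multiplicative.toAdd this
  rw [toAdd_prod] at h2
  simp only [MonoidHom.comp_apply, FreeGroup.lift_apply_of, toAdd_zpow] at h2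
  exact h2

end

theorem sum_single {m : ℕ} (z : Fin m → ℤ) : ∑ j, z j • (Pi.single j 1 : Fin m → ℤ) = z := by
  funext k
  simp [Finset.sum_apply, Pi.single_apply]

theorem exists_affine {S m n : ℕ} (hnm : n < m) (K M₀ : Subgroup (FreeGroup (Fin n))) [hK : K.Normal]
    [hM : M₀.Normal] [M₀.FiniteIndex] {R₀ : ℕ} (hG : Good S m K M₀ R₀) :
    ∃ (b : FreeGroup (Fin n) → (Fin m → ℤ)) (g : (Fin m → ℤ) →+ (Fin m → ℤ))
      (γ : FreeGroup (Fin n)) (Cb : ℕ), (∀ x, sup (b x) ≤ Cb * x.norm) ∧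
      (¬∃ t : ℤ, ∀ z, g z = t • z) ∧
      (∀ x y : FreeGroup (Fin n), (x : FreeGroup (Fin n) ⧸ M₀) = y → b x = b y → x * y⁻¹ ∈ K) ∧
      (∀ k ∈ K, b k = 0) ∧
      ∀ M : Subgroup (FreeGroup (Fin n)), M.Normal → M.FiniteIndex →
        (∀ x ∈ M, ∀ y ∈ M, x * y * x⁻¹ * y⁻¹ ∈ K) →
        (∀ x ∈ M, ∀ y, b (x * y) = b x + b y) ∧ ∀ x ∈ M, b (γ * x * γ⁻¹) = g (b x) := by
  classical
  obtain ⟨hKM, e, a, he, hek, ha, -⟩ := hG
  have ha1 : ∀ i, a i ∈ M₀ := fun i => (ha i).1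
  have hσ : ∀ z, e (pw a z) = z := by
    intro z
    rw [addOn_pw he ha1]
    simp only [fun i => (ha i).2.1]
    exact sum_single z
  have heq : ∀ x ∈ M₀, ∀ y ∈ M₀, e x = e y ↔ x * y⁻¹ ∈ K := by
    intro x hx y hy
    rw [← hek _ (M₀.mul_mem hx (M₀.inv_mem hy)), he x hx _ (M₀.inv_mem hy), addOn_inv he hy,
      ← sub_eq_add_neg, sub_eq_zero]
  have hcj : ∀ γ, ∀ x ∈ M₀, γ * x * γ⁻¹ ∈ M₀ := fun γ x hx => hM.conj_mem x hx γ
  have hρ0 : ∀ γ, ∀ x ∈ M₀, e (γ * pw a (e x) * γ⁻¹) = e (γ * x * γ⁻¹) := by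
    intro γ x hx
    rw [heq _ (hcj γ _ (pw_mem ha1 _)) _ (hcj γ x hx)]
    have h1 : pw a (e x) * x⁻¹ ∈ K := (heq _ (pw_mem ha1 _) _ hx).1 (hσ _)
    have h2 := hK.conj_mem _ h1 γ
    convert h2 using 1
    group
  obtain ⟨ρ, hρ⟩ : ∃ ρ : FreeGroup (Fin n) → (Fin m → ℤ) →+ (Fin m → ℤ),
      ∀ γ, ∀ x ∈ M₀, ρ γ (e x) = e (γ * x * γ⁻¹) := by
    refine ⟨fun γ => AddMonoidHom.mk' (fun z => e (γ * pw a z * γ⁻¹)) ?_, hρ0⟩
    intro z z'
    have h1 : z + z' = e (pw a z * pw a z') := by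
      rw [he _ (pw_mem ha1 _) _ (pw_mem ha1 _), hσ, hσ]
    rw [h1, hρ0 γ _ (M₀.mul_mem (pw_mem ha1 _) (pw_mem ha1 _)),
      ← he _ (hcj γ _ (pw_mem ha1 _)) _ (hcj γ _ (pw_mem ha1 _))]
    congr 1
    group
  have hρmul : ∀ γ δ z, ρ (γ * δ) z = ρ γ (ρ δ z) := by
    intro γ δ z
    rw [← hσ z, hρ _ _ (pw_mem ha1 _), hρ _ _ (pw_mem ha1 _), hρ _ _ (hcj δ _ (pw_mem ha1 _))]
    congr 1
    group
  have hρM : ∀ x ∈ M₀, ∀ z, ρ x z = z := by
    intro x hx z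
    rw [← hσ z, hρ _ _ (pw_mem ha1 _), he _ (M₀.mul_mem hx (pw_mem ha1 _)) _ (M₀.inv_mem hx),
      he _ hx _ (pw_mem ha1 _), addOn_inv he hx]
    abel
  haveI : Fintype (FreeGroup (Fin n) ⧸ M₀) := Fintype.ofFinite _
  have hcm : ∀ (γ : FreeGroup (Fin n)) (x : FreeGroup (Fin n) ⧸ M₀),
      γ * x.out * (((γ : FreeGroup (Fin n) ⧸ M₀) * x).out)⁻¹ ∈ M₀ := by
    intro γ x
    apply (QuotientGroup.eq_one_iff _).1
    simp [QuotientGroup.mk_mul, QuotientGroup.mk_inv]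
  obtain ⟨b, hbdef⟩ : ∃ b : FreeGroup (Fin n) → (Fin m → ℤ), ∀ γ, b γ =
      ∑ x : FreeGroup (Fin n) ⧸ M₀, e (γ * x.out * (((γ : FreeGroup (Fin n) ⧸ M₀) * x).out)⁻¹) :=
    ⟨_, fun _ => rfl⟩
  have hb1 : ∀ γ δ, b (γ * δ) = ρ γ (b δ) + b γ := by
    intro γ δ
    have h1 : b γ = ∑ x : FreeGroup (Fin n) ⧸ M₀, e (γ * ((δ : FreeGroup (Fin n) ⧸ M₀) * x).out *
        (((γ : FreeGroup (Fin n) ⧸ M₀) * ((δ : FreeGroup (Fin n) ⧸ M₀) * x)).out)⁻¹) := by
      rw [hbdef]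
      exact (Equiv.sum_comp (Equiv.mulLeft (δ : FreeGroup (Fin n) ⧸ M₀)) (fun x =>
        e (γ * x.out * (((γ : FreeGroup (Fin n) ⧸ M₀) * x).out)⁻¹))).symm
    rw [h1, hbdef, hbdef, map_sum, ← Finset.sum_add_distrib]
    refine Finset.sum_congr rfl fun x _ => ?_
    rw [hρ _ _ (hcm δ x), ← he _ (hcj γ _ (hcm δ x)) _ (hcm γ _), QuotientGroup.mk_mul,
      mul_assoc (γ : FreeGroup (Fin n) ⧸ M₀)]
    congr 1
    group
  have hb2 : ∀ x ∈ M₀, b x = Fintype.card (FreeGroup (Fin n) ⧸ M₀) • e x := by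
    intro x hx
    have h1 : (x : FreeGroup (Fin n) ⧸ M₀) = 1 := (QuotientGroup.eq_one_iff _).2 hx
    simp only [hbdef, h1, one_mul, mul_inv_cancel_right, Finset.sum_const, Finset.card_univ]
  have hb0 : b 1 = 0 := by rw [hb2 1 M₀.one_mem, addOn_one he, smul_zero]
  have hcard : Fintype.card (FreeGroup (Fin n) ⧸ M₀) ≠ 0 := Fintype.card_ne_zero
  -- growth
  have hcoc : IsCoc (QuotientGroup.mk' M₀)
      (fun x g => Multiplicative.ofAdd (ρ x.out (b g))) := by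
    intro x g g'
    beta_reduce
    rw [← ofAdd_add, hb1, map_add, add_comm, ← hρmul]
    congr 2
    have h1 : ((x * QuotientGroup.mk' M₀ g).out)⁻¹ * (x.out * g) ∈ M₀ := by
      apply (QuotientGroup.eq_one_iff _).1
      simp [QuotientGroup.mk_mul, QuotientGroup.mk_inv]
    have h2 : x.out * g = (x * QuotientGroup.mk' M₀ g).out *
        (((x * QuotientGroup.mk' M₀ g).out)⁻¹ * (x.out * g)) := by group
    rw [h2, hρmul, hρM _ h1]
  obtain ⟨Cb, hCb⟩ : ∃ Cb : ℕ, ∀ (x : FreeGroup (Fin n) ⧸ M₀) (i : Fin n),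
      sup (ρ x.out (b (FreeGroup.of i))) ≤ Cb :=
    ⟨Finset.univ.sup fun p : (FreeGroup (Fin n) ⧸ M₀) × Fin n =>
      sup (ρ p.1.out (b (FreeGroup.of p.2))), fun x i =>
      Finset.le_sup (f := fun p : (FreeGroup (Fin n) ⧸ M₀) × Fin n =>
        sup (ρ p.1.out (b (FreeGroup.of p.2)))) (Finset.mem_univ (x, i))⟩
  have hgrow : ∀ x, sup (b x) ≤ Cb * x.norm := by
    intro x
    have := hcoc.len_le (fun a => sup a.toAdd) (by simpa using sup_zero)
      (fun a b => by simpa using sup_add _ _) (fun a => by simpa using sup_neg _) Cb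
      (fun x i => by simpa using hCb x i) 1 x
    have h1 : (1 : FreeGroup (Fin n) ⧸ M₀).out ∈ M₀ := by
      apply (QuotientGroup.eq_one_iff _).1
      simp
    simpa [hρM _ h1] using this
  -- a non-scalar element
  have hns : ∃ γ, ¬∃ t : ℤ, ∀ z, ρ γ z = t • z := by
    by_contra hcon
    push Not at hcon
    let W : Submodule ℤ (Fin m → ℤ) := Submodule.span ℤ (Set.range fun i => b (FreeGroup.of i))
    have hW : ∀ x, b x ∈ W := by
      intro x
      induction x using FreeGroup.induction_on with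
      | C1 => rw [hb0]; exact W.zero_mem
      | of i => exact Submodule.subset_span ⟨i, rfl⟩
      | inv_of i ih =>
        have h1 := hb1 (FreeGroup.of i)⁻¹ (FreeGroup.of i)
        obtain ⟨t, ht⟩ := hcon (FreeGroup.of i)⁻¹
        rw [inv_mul_cancel, hb0, ht] at h1
        rw [eq_neg_of_add_eq_zero_right h1.symm]
        exact W.neg_mem (W.smul_mem _ ih)
      | mul x y hx hy =>
        obtain ⟨t, ht⟩ := hcon x
        rw [hb1, ht]
        exact W.add_mem (W.smul_mem _ hy) hx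
    let ι : (Fin m → ℤ) →ₗ[ℤ] W := LinearMap.codRestrict W
      ((Fintype.card (FreeGroup (Fin n) ⧸ M₀) : ℤ) • LinearMap.id) (by
        intro z
        have := hW (pw a z)
        rw [hb2 _ (pw_mem ha1 _), hσ] at this
        simpa using this)
    have hι : Function.Injective ι := by
      intro z z' h
      have h1 := congrArg Subtype.val h
      simp only [ι, LinearMap.codRestrict_apply, LinearMap.smul_apply, LinearMap.id_apply] at h1
      exact smul_right_injective _ (by exact_mod_cast hcard) h1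
    have h1 := LinearMap.finrank_le_finrank_of_injective hι
    have h2 : Module.finrank ℤ W ≤ n := by
      have := finrank_range_le_card (R := ℤ) (fun i : Fin n => b (FreeGroup.of i))
      simpa [Set.finrank] using this
    simp at h1
    omega
  obtain ⟨γ, hγ⟩ := hns
  refine ⟨b, ρ γ, γ, Cb, hgrow, hγ, ?_, ?_, ?_⟩
  · intro x y hxy hb
    have h1 : x * y⁻¹ ∈ M₀ := by
      apply (QuotientGroup.eq_one_iff _).1
      simp [QuotientGroup.mk_mul, QuotientGroup.mk_inv, hxy]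
    have h2 := hb1 (x * y⁻¹) y
    rw [inv_mul_cancel_right, hρM _ h1, hb, hb2 _ h1] at h2
    have h3 : Fintype.card (FreeGroup (Fin n) ⧸ M₀) • e (x * y⁻¹) = 0 := by
      simpa using h2
    rw [← hek _ h1]
    exact (smul_eq_zero.1 h3).resolve_left hcard
  · intro k hk
    rw [hb2 k (hKM hk), (hek k (hKM hk)).2 hk, smul_zero]
  · intro M hMn hMf hcomm
    have htriv : ∀ x ∈ M, ∀ z, ρ x z = z := by
      intro x hx z
      have hi : M.index ≠ 0 := hMf.index_ne_zero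
      have h1 : pw a z ^ M.index ∈ M := M.pow_index_mem _
      have h2 : pw a z ^ M.index ∈ M₀ := M₀.pow_mem (pw_mem ha1 _) _
      have h3 := (heq _ (hcj x _ h2) _ h2).2 (hcomm x hx _ h1)
      rw [← hρ _ _ h2, addOn_pow he (pw_mem ha1 _), hσ, map_nsmul] at h3
      exact smul_right_injective _ hi h3
    refine ⟨fun x hx y => by rw [hb1, htriv x hx, add_comm], fun x hx => ?_⟩
    have h1 := hb1 γ γ⁻¹
    rw [mul_inv_cancel, hb0] at h1
    rw [mul_assoc, hb1, hb1, htriv x hx, map_add]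
    linear_combination -h1

end Pool.Agent.H645Z.Box
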