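import Mathlib

set_option autoImplicit false

namespace Pool.Agent.H645Z.Box

section
variable {α : Type} {X G : Type} [Group X] [Group G]

/-- right cocycles over the action of a free group on a quotient group -/
def IsCoc (q : FreeGroup α →* X) (c : X → FreeGroup α → G) : Prop :=
  ∀ x g g', c x (g * g') = c x g * c (x * q g) g'

theorem IsCoc.one {q : FreeGroup α →* X} {c : X → FreeGroup α → G} (h : IsCoc q c) (x : X) :
    c x 1 = 1 := by
  have := h x 1 1
  simpa using this

theorem IsCoc.inv {q : FreeGroup α →* X} {c : X → FreeGroup α → G} (h : IsCoc q c) (x : X)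
    (g : FreeGroup α) : c x g⁻¹ = (c (x * q g⁻¹) g)⁻¹ := by
  have := h x g⁻¹ g
  rw [inv_mul_cancel, h.one] at this
  exact eq_inv_of_mul_eq_one_left this.symm

theorem IsCoc.ext {q : FreeGroup α →* X} {c c' : X → FreeGroup α → G} (h : IsCoc q c)
    (h' : IsCoc q c') (e : ∀ x i, c x (FreeGroup.of i) = c' x (FreeGroup.of i)) :
    ∀ g x, c x g = c' x g := by
  intro g
  induction g using FreeGroup.induction_on with
  | C1 => intro x; rw [h.one, h'.one]
  | of i => intro x; exact e x i
  | inv_of i ih => intro x; rw [h.inv, h'.inv, ih]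
  | mul g g' ih ih' => intro x; rw [h, h', ih, ih']

theorem IsCoc.map {G' : Type} [Group G'] {q : FreeGroup α →* X} {c : X → FreeGroup α → G}
    (h : IsCoc q c) (φ : G →* G') : IsCoc q (fun x g => φ (c x g)) := by
  intro x g g'
  simp only [h x g g', map_mul]

theorem coc_exists (q : FreeGroup α →* X) (w : X → α → G) :
    ∃ c : X → FreeGroup α → G, IsCoc q c ∧ ∀ x i, c x (FreeGroup.of i) = w x i := by
  let T : α → Equiv.Perm (X × G) := fun i =>
    { toFun := fun p => (p.1 * q (FreeGroup.of i), p.2 * w p.1 i)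
      invFun := fun p => (p.1 * (q (FreeGroup.of i))⁻¹,
        p.2 * (w (p.1 * (q (FreeGroup.of i))⁻¹) i)⁻¹)
      left_inv := by intro p; simp
      right_inv := by intro p; simp }
  let Φ : FreeGroup α →* (Equiv.Perm (X × G))ᵐᵒᵖ := FreeGroup.lift fun i => MulOpposite.op (T i)
  let act : FreeGroup α → X × G → X × G := fun g p => (Φ g).unop p
  have hmul : ∀ g g' p, act (g * g') p = act g' (act g p) := by
    intro g g' p
    simp only [act, map_mul, MulOpposite.unop_mul, Equiv.Perm.coe_mul, Function.comp]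
  have hof : ∀ i p, act (FreeGroup.of i) p = (p.1 * q (FreeGroup.of i), p.2 * w p.1 i) := by
    intro i p
    simp only [act, Φ, FreeGroup.lift_apply_of, MulOpposite.unop_op]
    rfl
  have hone : ∀ p, act 1 p = p := by
    intro p
    simp [act]
  have key : ∀ g x γ, act g (x, γ) = (x * q g, γ * (act g (x, 1)).2) := by
    intro g
    induction g using FreeGroup.induction_on with
    | C1 => intro x γ; simp [hone]
    | of i => intro x γ; simp [hof]
    | inv_of i _ =>
      have h1 : ∀ p : X × G, act (FreeGroup.of i)⁻¹ p = (p.1 * (q (FreeGroup.of i))⁻¹,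
          p.2 * (w (p.1 * (q (FreeGroup.of i))⁻¹) i)⁻¹) := by
        intro p
        simp only [act, Φ, map_inv, FreeGroup.lift_apply_of, MulOpposite.unop_inv,
          MulOpposite.unop_op]
        rfl
      intro x γ
      simp [h1]
    | mul g g' ih ih' =>
      intro x γ
      rw [hmul, hmul, ih x γ, ih x 1, ih' (x * q g) (γ * _), ih' (x * q g) (1 * _)]
      simp [mul_assoc]
  refine ⟨fun x g => (act g (x, 1)).2, ?_, ?_⟩
  · intro x g g'
    simp only
    rw [hmul, key g x 1, key g' (x * q g), one_mul]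
  · intro x i
    simp [hof]

/-- growth of a cocycle -/
theorem IsCoc.len_le [DecidableEq α] {q : FreeGroup α →* X} {c : X → FreeGroup α → G}
    (h : IsCoc q c) (ℓ : G → ℕ) (h1 : ℓ 1 = 0) (hm : ∀ a b, ℓ (a * b) ≤ ℓ a + ℓ b)
    (hi : ∀ a, ℓ a⁻¹ = ℓ a) (S : ℕ) (hS : ∀ x i, ℓ (c x (FreeGroup.of i)) ≤ S) (x : X)
    (g : FreeGroup α) : ℓ (c x g) ≤ S * g.norm := by
  have key : ∀ (L : List (α × Bool)) (x : X), ℓ (c x (FreeGroup.mk L)) ≤ S * L.length := by
    intro L
    induction L with
    | nil => intro x; rw [← FreeGroup.one_eq_mk, h.one, h1]; simp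
    | cons a L ih =>
      intro x
      have e : FreeGroup.mk (a :: L) = FreeGroup.mk [a] * FreeGroup.mk L := by
        rw [FreeGroup.mul_mk]; rfl
      rw [e, h]
      have h2 : ℓ (c x (FreeGroup.mk [a])) ≤ S := by
        obtain ⟨i, b⟩ := a
        cases b
        · have : FreeGroup.mk [(i, false)] = (FreeGroup.of i)⁻¹ := by
            rw [FreeGroup.of, FreeGroup.inv_mk]; rfl
          rw [this, h.inv, hi]
          exact hS _ _
        · exact hS x i
      calc _ ≤ _ := hm _ _
        _ ≤ S + S * L.length := Nat.add_le_add h2 (ih _)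
        _ = _ := by rw [List.length_cons]; ring
  have := key g.toWord x
  rwa [FreeGroup.mk_toWord] at this

/-- the elements of the kernel on which a cocycle is trivial form a normal subgroup -/
def IsCoc.triv {q : FreeGroup α →* X} {c : X → FreeGroup α → G} (h : IsCoc q c) :
    Subgroup (FreeGroup α) where
  carrier := {g | q g = 1 ∧ ∀ x, c x g = 1}
  one_mem' := ⟨map_one q, h.one⟩
  mul_mem' := by
    rintro a b ⟨ha, ha'⟩ ⟨hb, hb'⟩
    refine ⟨by rw [map_mul, ha, hb, one_mul], fun x => ?_⟩
    rw [h, ha', hb', one_mul]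
  inv_mem' := by
    rintro a ⟨ha, ha'⟩
    refine ⟨by rw [map_inv, ha, inv_one], fun x => ?_⟩
    rw [h.inv, ha', inv_one]

theorem IsCoc.triv_normal {q : FreeGroup α →* X} {c : X → FreeGroup α → G} (h : IsCoc q c) :
    h.triv.Normal := by
  constructor
  rintro a ⟨ha, ha'⟩ g
  refine ⟨by rw [map_mul, map_mul, ha, mul_one, ← map_mul, mul_inv_cancel, map_one], fun x => ?_⟩
  rw [h, h, ha', mul_one, map_mul, ha, mul_one, ← h, mul_inv_cancel, h.one]

end

theorem finite_norm_le {α : Type} [DecidableEq α] [Finite α] (r : ℕ) :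
    {g : FreeGroup α | g.norm ≤ r}.Finite := by
  have := (List.finite_length_le (α × Bool) r).preimage
    (f := (FreeGroup.toWord : FreeGroup α → List (α × Bool))) FreeGroup.toWord_injective.injOn
  exact this

theorem norm_zpow_of {α : Type} [DecidableEq α] (i : α) (z : ℤ) :
    (FreeGroup.of i ^ z).norm = z.natAbs := by
  obtain ⟨k, rfl | rfl⟩ := z.eq_nat_or_neg
  · simp
  · rw [zpow_neg, FreeGroup.norm_inv_eq]
    simp

theorem norm_list_prod_le {α : Type} [DecidableEq α] (L : List (FreeGroup α)) :
    L.prod.norm ≤ (L.map FreeGroup.norm).sum := by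
  induction L with
  | nil => simp
  | cons a L ih =>
    rw [List.prod_cons, List.map_cons, List.sum_cons]
    exact (FreeGroup.norm_mul_le _ _).trans (Nat.add_le_add_left ih _)

/-- abelianisation of the free group -/
def ab (m : ℕ) : FreeGroup (Fin m) →* Multiplicative (Fin m → ℤ) :=
  FreeGroup.lift fun i => Multiplicative.ofAdd (Pi.single i 1)

/-- a word representing a vector -/
def wd {m : ℕ} (z : Fin m → ℤ) : FreeGroup (Fin m) :=
  (List.ofFn fun i => FreeGroup.of i ^ z i).prod

theorem norm_wd_le {m : ℕ} (z : Fin m → ℤ) : (wd z).norm ≤ ∑ i, (z i).natAbs := by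
  refine (norm_list_prod_le _).trans (le_of_eq ?_)
  rw [List.map_ofFn, List.sum_ofFn]
  exact Finset.sum_congr rfl fun i _ => norm_zpow_of i (z i)

theorem map_wd {m : ℕ} {Q : Type} [CommGroup Q] (φ : FreeGroup (Fin m) →* Q) (z : Fin m → ℤ) :
    φ (wd z) = ∏ i, φ (FreeGroup.of i) ^ z i := by
  unfold wd
  rw [map_list_prod, List.map_ofFn, List.prod_ofFn]
  exact Finset.prod_congr rfl fun i _ => by simp

theorem ab_wd {m : ℕ} (z : Fin m → ℤ) : ab m (wd z) = Multiplicative.ofAdd z := by
  rw [map_wd]
  simp only [ab, FreeGroup.lift_apply_of]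
  apply Multiplicative.toAdd.injective
  rw [toAdd_prod]
  simp only [toAdd_zpow, toAdd_ofAdd]
  funext k
  simp [Finset.sum_apply, Pi.single_apply]

/-- sup norm on integer vectors -/
def sup {m : ℕ} (z : Fin m → ℤ) : ℕ := Finset.univ.sup fun i => (z i).natAbs

theorem le_sup {m : ℕ} (z : Fin m → ℤ) (i : Fin m) : (z i).natAbs ≤ sup z :=
  Finset.le_sup (f := fun i => (z i).natAbs) (Finset.mem_univ i)

theorem sup_le {m : ℕ} {z : Fin m → ℤ} {T : ℕ} (h : ∀ i, (z i).natAbs ≤ T) : sup z ≤ T :=
  Finset.sup_le fun i _ => h i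

theorem sup_add {m : ℕ} (a b : Fin m → ℤ) : sup (a + b) ≤ sup a + sup b :=
  sup_le fun i => (Int.natAbs_add_le _ _).trans (Nat.add_le_add (le_sup a i) (le_sup b i))

theorem sup_neg {m : ℕ} (a : Fin m → ℤ) : sup (-a) = sup a := by
  simp [sup]

theorem sup_zero {m : ℕ} : sup (0 : Fin m → ℤ) = 0 := by
  simp [sup]

theorem sup_ab_le {m : ℕ} (g : FreeGroup (Fin m)) : sup (ab m g).toAdd ≤ g.norm := by
  have h : IsCoc (1 : FreeGroup (Fin m) →* Unit) (fun _ g => ab m g) := by
    intro x g g'
    simp
  have := h.len_le (fun a => sup a.toAdd) (by simpa using sup_zero)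
    (fun a b => by simpa using sup_add _ _) (fun a => by simpa using sup_neg _) 1 (by
      intro x i
      simp only [ab, FreeGroup.lift_apply_of, toAdd_ofAdd]
      apply sup_le
      intro k
      rw [Pi.single_apply]
      split_ifs <;> simp) () g
  simpa using this

/-- the kernel of the abelianisation lies in every normal subgroup containing the basic
commutators -/
theorem ker_ab_le {m : ℕ} (H : Subgroup (FreeGroup (Fin m))) [H.Normal]
    (h : ∀ i j, FreeGroup.of i * FreeGroup.of j * (FreeGroup.of i)⁻¹ * (FreeGroup.of j)⁻¹ ∈ H)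
    (g : FreeGroup (Fin m)) (hg : ab m g = 1) : g ∈ H := by
  have hc0 : ∀ i j, Commute (QuotientGroup.mk' H (FreeGroup.of i))
      (QuotientGroup.mk' H (FreeGroup.of j)) := by
    intro i j
    have := (QuotientGroup.eq_one_iff _).2 (h i j)
    rw [← commutatorElement_eq_one_iff_commute, commutatorElement_def]
    simpa using this
  have hc1 : ∀ i g, Commute (QuotientGroup.mk' H (FreeGroup.of i)) (QuotientGroup.mk' H g) := by
    intro i g
    induction g using FreeGroup.induction_on with
    | C1 => simp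
    | of j => exact hc0 i j
    | inv_of j ih => rw [map_inv]; exact ih.inv_right
    | mul a b ha hb => rw [map_mul]; exact ha.mul_right hb
  have hc2 : ∀ g' g, Commute (QuotientGroup.mk' H g') (QuotientGroup.mk' H g) := by
    intro g' g
    induction g' using FreeGroup.induction_on with
    | C1 => simp
    | of j => exact hc1 j g
    | inv_of j ih => rw [map_inv]; exact ih.inv_left
    | mul a b ha hb => rw [map_mul]; exact ha.mul_left hb
  let inst : CommGroup (FreeGroup (Fin m) ⧸ H) :=
    { (inferInstance : Group (FreeGroup (Fin m) ⧸ H)) with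
      mul_comm := by
        intro a b
        obtain ⟨a, rfl⟩ := QuotientGroup.mk'_surjective H a
        obtain ⟨b, rfl⟩ := QuotientGroup.mk'_surjective H b
        exact hc2 a b }
  let ψ : Multiplicative (Fin m → ℤ) →* (FreeGroup (Fin m) ⧸ H) :=
    { toFun := fun z => ∏ i, QuotientGroup.mk' H (FreeGroup.of i) ^ (z.toAdd i)
      map_one' := by simp
      map_mul' := by
        intro a b
        simp [zpow_add, Finset.prod_mul_distrib] }
  have he : ψ.comp (ab m) = QuotientGroup.mk' H := by
    apply FreeGroup.ext_hom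
    intro i
    simp only [MonoidHom.comp_apply, ab, FreeGroup.lift_apply_of, ψ, MonoidHom.coe_mk,
      OneHom.coe_mk, toAdd_ofAdd]
    rw [Finset.prod_eq_single i]
    · simp
    · intro j _ hj
      simp [Pi.single_eq_of_ne hj]
    · simp
  have : QuotientGroup.mk' H g = 1 := by
    rw [← he, MonoidHom.comp_apply, hg, map_one]
  exact (QuotientGroup.eq_one_iff _).1 this

end Pool.Agent.H645Z.Box
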