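import Pool.Agent.H645Z.Box.Affine

set_option autoImplicit false

namespace Pool.Agent.H645Z.Box

theorem card_ker_le {ι : Type} [Fintype ι] [DecidableEq ι] (φ : (ι → ℤ) →+ ℤ) (i₀ : ι)
    (hφ : φ (Pi.single i₀ 1) ≠ 0) (T : ℕ) (s : Finset (ι → ℤ))
    (hs : ∀ W ∈ s, φ W = 0 ∧ ∀ i, (W i).natAbs ≤ T) :
    s.card ≤ (2 * T + 1) ^ (Fintype.card ι - 1) := by
  have h1 : s.card ≤ (Fintype.piFinset fun _ : {i // i ≠ i₀} => Finset.Icc (-(T : ℤ)) T).card := by
    apply Finset.card_le_card_of_injOn (fun W i => W i.1)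
    · intro W hW
      simp only [Finset.coe_filter, Finset.mem_coe, Fintype.mem_piFinset, Finset.mem_Icc]
      intro i
      have := (hs W hW).2 i
      omega
    · intro W hW W' hW' h
      have h2 : W - W' = (W i₀ - W' i₀) • (Pi.single i₀ 1 : ι → ℤ) := by
        funext i
        by_cases hi : i = i₀
        · subst hi; simp
        · have := congrFun h ⟨i, hi⟩
          simp only at this
          simp [Pi.single_eq_of_ne hi, this]
      have h3 : φ (W - W') = 0 := by rw [map_sub, (hs W hW).1, (hs W' hW').1, sub_zero]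
      rw [h2, map_zsmul, smul_eq_mul, mul_eq_zero] at h3
      rw [h3.resolve_right hφ, zero_smul] at h2
      exact sub_eq_zero.1 h2
  refine h1.trans (le_of_eq ?_)
  rw [Fintype.card_piFinset, Finset.prod_const, Finset.card_univ, Int.card_Icc,
    Fintype.card_subtype_compl, Fintype.card_subtype_eq]
  congr 1
  omega

theorem card_sol_le {m : ℕ} (hm : 0 < m) (g : (Fin m → ℤ) →+ (Fin m → ℤ))
    (hg : ¬∃ t : ℤ, ∀ z, g z = t • z) (C : Fin m × Fin m → ℤ) (T : ℕ)
    (s : Finset (Fin m × Fin m → ℤ))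
    (hs : ∀ W ∈ s, (∀ i, g (fun k => W (i, k)) = ∑ j, C (i, j) • fun k => W (j, k)) ∧
      ∀ p, (W p).natAbs ≤ T) : s.card ≤ (2 * T + 1) ^ (m * m - 1) := by
  classical
  let i : Fin m := ⟨0, hm⟩
  have h1 : ∃ l k, (g (Pi.single l 1) - C (i, i) • (Pi.single l 1 : Fin m → ℤ)) k ≠ 0 := by
    by_contra hcon
    push Not at hcon
    apply hg
    refine ⟨C (i, i), fun z => ?_⟩
    have h2 : ∀ l, g (Pi.single l 1) = C (i, i) • (Pi.single l 1 : Fin m → ℤ) := fun l =>
      sub_eq_zero.1 (funext (hcon l))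
    conv_lhs => rw [← sum_single z]
    conv_rhs => rw [← sum_single z]
    rw [map_sum, Finset.smul_sum]
    refine Finset.sum_congr rfl fun l _ => ?_
    rw [map_zsmul, h2, smul_comm]
  obtain ⟨l, k, hlk⟩ := h1
  let φ : (Fin m × Fin m → ℤ) →+ ℤ := AddMonoidHom.mk'
    (fun W => (g (fun k => W (i, k)) - ∑ j, C (i, j) • fun k => W (j, k)) k) (by
      intro W W'
      have e1 : (fun k => (W + W') (i, k)) = (fun k => W (i, k)) + fun k => W' (i, k) := rfl
      rw [e1, map_add]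
      simp only [Pi.sub_apply, Pi.add_apply, Finset.sum_apply, Pi.smul_apply, smul_eq_mul,
        mul_add, Finset.sum_add_distrib]
      ring)
  have h3 := card_ker_le φ (i, l) (by
    show (g (fun k => (Pi.single (i, l) 1 : Fin m × Fin m → ℤ) (i, k)) -
      ∑ j, C (i, j) • fun k => (Pi.single (i, l) 1 : Fin m × Fin m → ℤ) (j, k)) k ≠ 0
    have e1 : (fun k => (Pi.single (i, l) 1 : Fin m × Fin m → ℤ) (i, k)) = Pi.single l 1 := by
      funext k
      simp [Pi.single_apply]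
    rw [Finset.sum_eq_single i, e1]
    · exact hlk
    · intro j _ hj
      funext k
      simp [Pi.single_apply, hj]
    · simp) T s (fun W hW => ⟨by
      show (g (fun k => W (i, k)) - ∑ j, C (i, j) • fun k => W (j, k)) k = 0
      rw [(hs W hW).1 i, sub_self]
      rfl, (hs W hW).2⟩)
  simpa using h3

theorem count_good {S m n : ℕ} (hnm : n < m) (K : Subgroup (FreeGroup (Fin n))) [hK : K.Normal] :
    ∃ C : ℕ, ∀ R, 1 ≤ R → ∀ t : Finset (Subgroup (FreeGroup (Fin n))),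
      (∀ M ∈ t, M.Normal ∧ M.FiniteIndex ∧ Good S m K M R) → t.card ≤ C * R ^ (m * m - 1) := by
  classical
  by_cases hex : ∃ (M₀ : Subgroup (FreeGroup (Fin n))) (R₀ : ℕ),
      M₀.Normal ∧ M₀.FiniteIndex ∧ Good S m K M₀ R₀
  swap
  · refine ⟨0, fun R _ t ht => ?_⟩
    have : t = ∅ := Finset.eq_empty_of_forall_notMem fun M hM => hex ⟨M, R, ht M hM⟩
    simp [this]
  obtain ⟨M₀, R₀, hn0, hf0, hG0⟩ := hex
  obtain ⟨b, g, γ, Cb, hb, hg, hfib, hbK, hbM⟩ := exists_affine hnm K M₀ hG0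
  haveI : Fintype (FreeGroup (Fin n) ⧸ M₀) := Fintype.ofFinite _
  obtain ⟨cB, hcB⟩ : ∃ cB : ℕ, cB = S * (S * (2 * m + 1) + 2 * γ.norm) := ⟨_, rfl⟩
  obtain ⟨c₁, hc₁⟩ : ∃ c₁ : ℕ, c₁ = Cb * (S * (2 * m + 1)) := ⟨_, rfl⟩
  let CC : Finset (Fin m × Fin m → ℤ) := Fintype.piFinset fun _ => Finset.Icc (-(cB : ℤ)) cB
  refine ⟨Fintype.card (Fin m → FreeGroup (Fin n) ⧸ M₀) * (CC.card * (2 * c₁ + 1) ^ (m * m - 1)),
    fun R hR t ht => ?_⟩
  let Sol : (Fin m × Fin m → ℤ) → Finset (Fin m × Fin m → ℤ) := fun C =>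
    (Fintype.piFinset fun _ => Finset.Icc (-((c₁ * R : ℕ) : ℤ)) (c₁ * R : ℕ)).filter
      fun W => ∀ i, g (fun k => W (i, k)) = ∑ j, C (i, j) • fun k => W (j, k)
  have hSol : ∀ C, (Sol C).card ≤ (2 * c₁ + 1) ^ (m * m - 1) * R ^ (m * m - 1) := by
    intro C
    refine (card_sol_le (by omega) g hg C (c₁ * R) _ ?_).trans ?_
    · intro W hW
      simp only [Sol, Finset.mem_filter, Fintype.mem_piFinset, Finset.mem_Icc] at hW
      refine ⟨hW.2, fun p => ?_⟩
      have := hW.1 p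
      omega
    · rw [← mul_pow]
      apply Nat.pow_le_pow_left
      nlinarith
  have hcard : ((Finset.univ : Finset (Fin m → FreeGroup (Fin n) ⧸ M₀)) ×ˢ CC.biUnion Sol).card ≤
      Fintype.card (Fin m → FreeGroup (Fin n) ⧸ M₀) * (CC.card * (2 * c₁ + 1) ^ (m * m - 1)) *
        R ^ (m * m - 1) := by
    rw [Finset.card_product, Finset.card_univ, mul_assoc, mul_assoc]
    exact Nat.mul_le_mul_left _ (Finset.card_biUnion_le_card_mul _ _ _ fun C _ => hSol C)
  refine le_trans ?_ hcard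
  have hch : ∀ M, M ∈ t → ∃ (e : FreeGroup (Fin n) → (Fin m → ℤ)) (a : Fin m → FreeGroup (Fin n)),
      (∀ x ∈ M, ∀ y ∈ M, e (x * y) = e x + e y) ∧ (∀ x ∈ M, e x = 0 ↔ x ∈ K) ∧
      (∀ i, a i ∈ M ∧ e (a i) = Pi.single i 1 ∧ (a i).norm ≤ S * ((2 * m + 1) * R)) ∧
      ∀ x ∈ M, R * sup (e x) ≤ S * x.norm := fun M hM => (ht M hM).2.2.2
  choose! e a he hek ha hlow using hch
  have hdec : ∀ M ∈ t, ∀ x ∈ M, x * (pw (a M) (e M x))⁻¹ ∈ K := by
    intro M hM x hx
    have ha1 : ∀ i, a M i ∈ M := fun i => (ha M hM i).1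
    rw [← hek M hM _ (M.mul_mem hx (M.inv_mem (pw_mem ha1 _))),
      he M hM _ hx _ (M.inv_mem (pw_mem ha1 _)), addOn_inv (he M hM) (pw_mem ha1 _),
      addOn_pw (he M hM) ha1]
    simp only [fun i => (ha M hM i).2.1]
    rw [sum_single, add_neg_cancel]
  apply Finset.card_le_card_of_injOn
    (fun M => (fun i => (a M i : FreeGroup (Fin n) ⧸ M₀), fun p => b (a M p.1) p.2))
  · intro M hM
    have hM' : M ∈ t := hM
    obtain ⟨hMn, hMf, -⟩ := ht M hM'
    have ha1 : ∀ i, a M i ∈ M := fun i => (ha M hM' i).1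
    obtain ⟨hb1, hb2⟩ := hbM M hMn hMf (by
      intro x hx y hy
      rw [← hek M hM' _ (M.mul_mem (M.mul_mem (M.mul_mem hx hy) (M.inv_mem hx)) (M.inv_mem hy)),
        he M hM' _ (M.mul_mem (M.mul_mem hx hy) (M.inv_mem hx)) _ (M.inv_mem hy),
        he M hM' _ (M.mul_mem hx hy) _ (M.inv_mem hx), he M hM' _ hx _ hy,
        addOn_inv (he M hM') hx, addOn_inv (he M hM') hy]
      abel)
    simp only [Finset.coe_product, Finset.coe_univ, Finset.coe_biUnion, Set.mem_prod,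
      Set.mem_univ, true_and, Set.mem_iUnion, Finset.mem_coe]
    refine ⟨fun p => e M (γ * a M p.1 * γ⁻¹) p.2, ?_, ?_⟩
    · simp only [CC, Fintype.mem_piFinset, Finset.mem_Icc]
      rintro ⟨i, j⟩
      have h1 := hlow M hM' _ (hMn.conj_mem _ (ha1 i) γ)
      have h2 := le_sup (e M (γ * a M i * γ⁻¹)) j
      have h3 := FreeGroup.norm_mul_le (γ * a M i) γ⁻¹
      have h4 := FreeGroup.norm_mul_le γ (a M i)
      have h5 := (ha M hM' i).2.2
      rw [FreeGroup.norm_inv_eq] at h3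
      have h6 : (γ * a M i * γ⁻¹).norm ≤ R * (S * (2 * m + 1) + 2 * γ.norm) := by
        have : γ.norm ≤ R * γ.norm := Nat.le_mul_of_pos_left _ hR
        nlinarith
      have h7 : R * sup (e M (γ * a M i * γ⁻¹)) ≤ R * cB := by
        refine h1.trans ((Nat.mul_le_mul_left S h6).trans (le_of_eq ?_))
        rw [hcB]; ring
      have h8 := Nat.le_of_mul_le_mul_left h7 hR
      simp only
      omega
    · simp only [Sol, Finset.mem_filter, Fintype.mem_piFinset, Finset.mem_Icc]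
      constructor
      · rintro ⟨i, j⟩
        have h1 := hb (a M i)
        have h2 := le_sup (b (a M i)) j
        have h3 := Nat.mul_le_mul_left Cb (ha M hM' i).2.2
        have h4 : Cb * (S * ((2 * m + 1) * R)) = c₁ * R := by rw [hc₁]; ring
        simp only
        omega
      · intro i
        have hx := hMn.conj_mem _ (ha1 i) γ
        have h1 := hdec M hM' _ hx
        have h2 := hb1 _ ((ht M hM').2.2.1 h1) (pw (a M) (e M (γ * a M i * γ⁻¹)))
        rw [inv_mul_cancel_right, hbK _ h1, zero_add, hb2 _ (ha1 i),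
          addOn_pw (fun x hx y _ => hb1 x hx y) ha1] at h2
        exact h2
  · have hle : ∀ M ∈ t, ∀ M' ∈ t, (∀ i, a M i * (a M' i)⁻¹ ∈ K) → M ≤ M' := by
      intro M hM M' hM' h x hx
      have hKM' : K ≤ M' := (ht M' hM').2.2.1
      have h1 : ∀ i, a M i ∈ M' := fun i => by
        have := M'.mul_mem (hKM' (h i)) (ha M' hM' i).1
        simpa using this
      have := M'.mul_mem (hKM' (hdec M hM x hx)) (pw_mem h1 (e M x))
      simpa using this
    intro M hM M' hM' h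
    simp only [Prod.mk.injEq] at h
    have h1 : ∀ i, b (a M i) = b (a M' i) := fun i => funext fun k => congrFun h.2 (i, k)
    exact le_antisymm (hle M hM M' hM' fun i => hfib _ _ (congrFun h.1 i) (h1 i))
      (hle M' hM' M hM fun i => hfib _ _ (congrFun h.1 i).symm (h1 i).symm)

end Pool.Agent.H645Z.Box
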