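import Mathlib

set_option autoImplicit false

namespace Pool.Agent.H645Z.Box

/-- the finite-index normal subgroups of the free group of rank `k` -/
abbrev FN (k : ℕ) : Type := {N : Subgroup (FreeGroup (Fin k)) // N.Normal ∧ N.FiniteIndex}

instance instNormalFN {k : ℕ} (N : FN k) : N.1.Normal := N.2.1

/-- the underlying set of the full box space: the disjoint union of the finite quotients -/
abbrev BoxPt (k : ℕ) : Type := Σ N : FN k, FreeGroup (Fin k) ⧸ N.1

/-- the word metric of the quotient `F_k / N` for the image of the free basis: the least length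
of a word `w` with `x * w = y` -/
noncomputable def wordDist {k : ℕ} (N : FN k) (x y : FreeGroup (Fin k) ⧸ N.1) : ℕ :=
  sInf {r : ℕ | ∃ w : FreeGroup (Fin k), w.norm = r ∧ x * (w : FreeGroup (Fin k) ⧸ N.1) = y}

/-- `D` is a metric on the disjoint union that restricts to the word metric on each piece and
for which only finitely many pairs of distinct pieces are at distance at most `R` -/
structure IsBoxMetric (k : ℕ) (D : BoxPt k → BoxPt k → ℝ) : Prop where
  eq_zero_iff : ∀ p q, D p q = 0 ↔ p = q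
  symm : ∀ p q, D p q = D q p
  triangle : ∀ p q r, D p r ≤ D p q + D q r
  piece : ∀ (N : FN k) (x y : FreeGroup (Fin k) ⧸ N.1), D ⟨N, x⟩ ⟨N, y⟩ = wordDist N x y
  apart : ∀ R : ℝ, {P : FN k × FN k | P.1 ≠ P.2 ∧
    ∃ x y, D ⟨P.1, x⟩ ⟨P.2, y⟩ ≤ R}.Finite

/-- coarse equivalences between two metric spaces given by their distance functions -/
def IsCoarseEquiv {X Y : Type} (D : X → X → ℝ) (D' : Y → Y → ℝ) (f : X → Y) : Prop :=
  ∃ ρm ρp : ℝ → ℝ, MonotoneOn ρm (Set.Ici 0) ∧ MonotoneOn ρp (Set.Ici 0) ∧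
    (∀ t, 0 ≤ t → 0 ≤ ρm t) ∧ (∀ t, 0 ≤ t → 0 ≤ ρp t) ∧
    Filter.Tendsto ρm Filter.atTop Filter.atTop ∧
    (∀ x x', ρm (D x x') ≤ D' (f x) (f x') ∧ D' (f x) (f x') ≤ ρp (D x x')) ∧
    ∃ C : ℝ, ∀ y, ∃ x, D' (f x) y ≤ C

end Pool.Agent.H645Z.Box
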