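import Pool.Agent.H645Z.Box.Pieces

set_option autoImplicit false

namespace Pool.Agent.H645Z.Box

theorem wordDist_self {k : ℕ} (N : FN k) (x : FreeGroup (Fin k) ⧸ N.1) : wordDist N x x = 0 :=
  Nat.le_zero.1 (Nat.sInf_le ⟨1, FreeGroup.norm_one, by simp⟩)

theorem wordDist_eq_zero {k : ℕ} (N : FN k) {x y : FreeGroup (Fin k) ⧸ N.1}
    (h : wordDist N x y = 0) : x = y := by
  obtain ⟨w, h1, h2⟩ := wordDist_spec N x y
  rw [h, FreeGroup.norm_eq_zero] at h1
  rw [← h2, h1]
  simp

theorem wordDist_symm_le {k : ℕ} (N : FN k) (x y : FreeGroup (Fin k) ⧸ N.1) :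
    wordDist N y x ≤ wordDist N x y := by
  obtain ⟨w, h1, h2⟩ := wordDist_spec N x y
  exact Nat.sInf_le ⟨w⁻¹, by rw [FreeGroup.norm_inv_eq, h1], by rw [← h2]; simp⟩

theorem wordDist_triangle {k : ℕ} (N : FN k) (x y z : FreeGroup (Fin k) ⧸ N.1) :
    wordDist N x z ≤ wordDist N x y + wordDist N y z := by
  obtain ⟨w, h1, h2⟩ := wordDist_spec N x y
  obtain ⟨w', h3, h4⟩ := wordDist_spec N y z
  refine le_trans (Nat.sInf_le ⟨w * w', rfl, ?_⟩) ?_
  · rw [QuotientGroup.mk_mul, ← mul_assoc, h2, h4]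
  · rw [← h1, ← h3]
    exact FreeGroup.norm_mul_le _ _

theorem countable_FN (k : ℕ) : Countable (FN k) := by
  haveI : Countable (FreeGroup (Fin k)) := FreeGroup.toWord_injective.countable
  have h : ∀ N : FN k, ∃ S : Finset (FreeGroup (Fin k)),
      Subgroup.closure (S : Set (FreeGroup (Fin k))) = N.1 := by
    intro N
    haveI := N.2.2
    exact (Group.fg_iff_subgroup_fg N.1).1 inferInstance
  choose S hS using h
  refine Function.Injective.countable (f := S) fun N N' e => Subtype.ext ?_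
  rw [← hS, ← hS, e]

/-- admissible metrics on the full box space exist -/
theorem exists_isBoxMetric (k : ℕ) : ∃ D : BoxPt k → BoxPt k → ℝ, IsBoxMetric k D := by
  classical
  haveI := countable_FN k
  obtain ⟨c, hc⟩ := exists_injective_nat (FN k)
  have hd : ∀ N : FN k, ∃ d : ℕ, ∀ x y, wordDist N x y ≤ d := by
    intro N
    haveI := N.2.2
    obtain ⟨d, hd⟩ := (Set.finite_range fun p : (FreeGroup (Fin k) ⧸ N.1) ×
      (FreeGroup (Fin k) ⧸ N.1) => wordDist N p.1 p.2).bddAbove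
    exact ⟨d, fun x y => hd ⟨(x, y), rfl⟩⟩
  choose d hd using hd
  obtain ⟨D, h1, h2⟩ : ∃ D : BoxPt k → BoxPt k → ℕ,
      (∀ N x y, D ⟨N, x⟩ ⟨N, y⟩ = wordDist N x y) ∧
      ∀ p q, p.1 ≠ q.1 → D p q = (d p.1 + c p.1 + 1) + (d q.1 + c q.1 + 1) := by
    refine ⟨fun p q => if h : p.1 = q.1 then wordDist q.1 (h ▸ p.2) q.2 else
      (d p.1 + c p.1 + 1) + (d q.1 + c q.1 + 1), ?_, ?_⟩
    · intro N x y
      simp
    · intro p q h
      simp [h]
  refine ⟨fun p q => D p q, ?_, ?_, ?_, ?_, ?_⟩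
  · rintro ⟨N, x⟩ ⟨N', y⟩
    rw [Nat.cast_eq_zero]
    by_cases h : N = N'
    · subst h
      rw [h1]
      constructor
      · intro e; rw [wordDist_eq_zero N e]
      · intro e
        rw [eq_of_heq (Sigma.mk.inj e).2, wordDist_self]
    · rw [h2 _ _ h]
      constructor
      · intro e; omega
      · intro e; exact absurd (congrArg Sigma.fst e) h
  · rintro ⟨N, x⟩ ⟨N', y⟩
    rw [Nat.cast_inj]
    by_cases h : N = N'
    · subst h
      rw [h1, h1]
      exact le_antisymm (wordDist_symm_le N y x) (wordDist_symm_le N x y)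
    · rw [h2 _ _ h, h2 _ _ (Ne.symm h), add_comm]
  · rintro ⟨N, x⟩ ⟨N', y⟩ ⟨N'', z⟩
    rw [← Nat.cast_add, Nat.cast_le]
    by_cases h : N = N'
    · subst h
      by_cases h' : N = N''
      · subst h'
        rw [h1, h1, h1]
        exact wordDist_triangle N x y z
      · rw [h2 _ _ h', h2 ⟨N, y⟩ _ h']
        simp
    · by_cases h' : N' = N''
      · subst h'
        rw [h2 _ _ h, h2 _ ⟨N', y⟩ h]
        simp
      · rw [h2 _ ⟨N', y⟩ h, h2 ⟨N', y⟩ _ h']
        by_cases h'' : N = N''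
        · subst h''
          rw [h1]
          have := hd N x z
          simp only
          omega
        · rw [h2 _ _ h'']
          simp only
          omega
  · intro N x y
    rw [h1]
  · intro R
    obtain ⟨T, hT⟩ := exists_nat_ge R
    have hfin : {N : FN k | c N ≤ T}.Finite := (Set.finite_Iic T).preimage hc.injOn
    refine (hfin.prod hfin).subset ?_
    rintro ⟨N, N'⟩ ⟨hne, x, y, hxy⟩
    rw [h2 _ _ hne] at hxy
    have h3 : (d N + c N + 1) + (d N' + c N' + 1) ≤ T := by exact_mod_cast hxy.trans hT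
    constructor
    · show c N ≤ T
      omega
    · show c N' ≤ T
      omega

end Pool.Agent.H645Z.Box
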