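import Pool.Agent.H645Z.Box.Cocycle

set_option autoImplicit false

namespace Pool.Agent.H645Z.Box

section
variable {α β : Type} {X Y G : Type} [Group X] [Group Y] [Group G]

theorem coc_cob (q : FreeGroup α →* X) (φ : X → G) (ψ : FreeGroup α →* G) :
    IsCoc q (fun x g => (φ x)⁻¹ * ψ g * φ (x * q g)) := by
  intro x g g'
  simp [mul_assoc]

theorem IsCoc.comp {q : FreeGroup α →* X} {q' : FreeGroup β →* Y}
    {c : X → FreeGroup α → FreeGroup β} {d : Y → FreeGroup β → G} (hc : IsCoc q c)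
    (hd : IsCoc q' d) (f : X → Y) (hf : ∀ x g, f x * q' (c x g) = f (x * q g)) :
    IsCoc q (fun x g => d (f x) (c x g)) := by
  intro x g g'
  simp only
  rw [hc, hd, hf]

/-- lifting a coarse map to a cocycle -/
theorem lift_coc [DecidableEq α] [DecidableEq β] (q : FreeGroup α →* X) (q' : FreeGroup β →* Y)
    (f : X → Y) (S : ℕ)
    (h : ∀ x i, ∃ w : FreeGroup β, w.norm ≤ S ∧ f x * q' w = f (x * q (FreeGroup.of i))) :
    ∃ c : X → FreeGroup α → FreeGroup β, IsCoc q c ∧ (∀ x g, (c x g).norm ≤ S * g.norm) ∧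
      ∀ x g, f x * q' (c x g) = f (x * q g) := by
  choose w hw1 hw2 using h
  obtain ⟨c, hc, hcw⟩ := coc_exists q w
  refine ⟨c, hc, fun x g => hc.len_le FreeGroup.norm FreeGroup.norm_one FreeGroup.norm_mul_le
    (fun a => FreeGroup.norm_inv_eq) S (fun x i => by rw [hcw]; exact hw1 x i) x g, ?_⟩
  have := (hc.map q').ext (coc_cob q f 1) (by
    intro x i
    simp only [hcw, MonoidHom.one_apply, mul_one]
    rw [← hw2, inv_mul_cancel_left])
  intro x g
  have h2 := this g x
  simp only [MonoidHom.one_apply, mul_one] at h2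
  rw [h2, mul_inv_cancel_left]

end

/-- uniform data of a coarse equivalence between two quotients -/
def Pair (S : ℕ) {m n : ℕ} (N : Subgroup (FreeGroup (Fin m))) [N.Normal]
    (M : Subgroup (FreeGroup (Fin n))) [M.Normal] : Prop :=
  ∃ (f : FreeGroup (Fin m) ⧸ N → FreeGroup (Fin n) ⧸ M)
    (h : FreeGroup (Fin n) ⧸ M → FreeGroup (Fin m) ⧸ N),
    (∀ x i, ∃ w : FreeGroup (Fin n), w.norm ≤ S ∧
      f x * (w : FreeGroup (Fin n) ⧸ M) = f (x * (FreeGroup.of i : FreeGroup (Fin m)))) ∧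
    (∀ y j, ∃ u : FreeGroup (Fin m), u.norm ≤ S ∧
      h y * (u : FreeGroup (Fin m) ⧸ N) = h (y * (FreeGroup.of j : FreeGroup (Fin n)))) ∧
    (∀ x, ∃ u : FreeGroup (Fin m), u.norm ≤ S ∧ x * (u : FreeGroup (Fin m) ⧸ N) = h (f x)) ∧
    (∀ y, ∃ w : FreeGroup (Fin n), w.norm ≤ S ∧ y * (w : FreeGroup (Fin n) ⧸ M) = f (h y))

/-- the normal closure of the short elements -/
def Kr {n : ℕ} (M : Subgroup (FreeGroup (Fin n))) (r : ℕ) : Subgroup (FreeGroup (Fin n)) :=
  Subgroup.normalClosure {g | g ∈ M ∧ g.norm ≤ r}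

instance instKrNormal {n : ℕ} (M : Subgroup (FreeGroup (Fin n))) (r : ℕ) : (Kr M r).Normal :=
  Subgroup.normalClosure_normal

theorem Kr_le {n : ℕ} (M : Subgroup (FreeGroup (Fin n))) [M.Normal] (r : ℕ) : Kr M r ≤ M :=
  Subgroup.normalClosure_le_normal fun _ hg => hg.1

theorem mem_Kr {n : ℕ} {M : Subgroup (FreeGroup (Fin n))} {r : ℕ} {g : FreeGroup (Fin n)}
    (h : g ∈ M) (h' : g.norm ≤ r) : g ∈ Kr M r :=
  Subgroup.subset_normalClosure ⟨h, h'⟩

theorem lift_main (S : ℕ) {m n : ℕ} (N : Subgroup (FreeGroup (Fin m))) [N.Normal]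
    (M : Subgroup (FreeGroup (Fin n))) [M.Normal] (hP : Pair S N M)
    (L : AddSubgroup (Fin m → ℤ)) (hN : ∀ g, g ∈ N ↔ (ab m g).toAdd ∈ L) (r : ℕ)
    (hr : S * S + 4 * S + 1 ≤ r) (hinj : ∀ l ∈ L, sup l ≤ (S + 1) * r → l = 0) :
    ∃ η : FreeGroup (Fin n) → (Fin m → ℤ),
      (∀ a ∈ M, ∀ b, η (a * b) = η a + η b) ∧ (∀ a ∈ M, η a = 0 ↔ a ∈ Kr M r) ∧
      (∀ a ∈ M, η a ∈ L) ∧ (∀ l ∈ L, ∃ a ∈ M, η a = l ∧ a.norm ≤ S * ∑ i, (l i).natAbs) ∧
      ∀ a, sup (η a) ≤ S * a.norm := by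
  obtain ⟨f, h, hf, hh, hhf, hfh⟩ := hP
  obtain ⟨c, hc, hcn, hcf⟩ := lift_coc (QuotientGroup.mk' N) (QuotientGroup.mk' M) f S hf
  obtain ⟨d, hd, hdn, hdh⟩ := lift_coc (QuotientGroup.mk' M) (QuotientGroup.mk' N) h S hh
  choose δ hδ1 hδ2 using hhf
  choose ε hε1 hε2 using hfh
  set K := Kr M r with hK
  have short : ∀ g ∈ N, g.norm ≤ (S + 1) * r → ab m g = 1 := by
    intro g hg hn
    have := hinj _ ((hN g).1 hg) ((sup_ab_le g).trans hn)
    exact Multiplicative.toAdd.injective this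
  have hcM : ∀ x, ∀ g ∈ N, c x g ∈ M := by
    intro x g hg
    have h1 := hcf x g
    have h2 : QuotientGroup.mk' N g = 1 := (QuotientGroup.eq_one_iff _).2 hg
    rw [h2, mul_one, mul_eq_left] at h1
    exact (QuotientGroup.eq_one_iff _).1 h1
  have hdN : ∀ y, ∀ g ∈ M, d y g ∈ N := by
    intro y g hg
    have h1 := hdh y g
    have h2 : QuotientGroup.mk' M g = 1 := (QuotientGroup.eq_one_iff _).2 hg
    rw [h2, mul_one, mul_eq_left] at h1
    exact (QuotientGroup.eq_one_iff _).1 h1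
  -- (1) the abelian cocycle kills `K`
  have hd' := hd.map (ab m)
  have h1 : ∀ g ∈ K, ∀ y, ab m (d y g) = 1 := by
    haveI := hd'.triv_normal
    have : K ≤ hd'.triv := by
      apply Subgroup.normalClosure_le_normal
      rintro g ⟨hg, hn⟩
      refine ⟨(QuotientGroup.eq_one_iff _).2 hg, fun y => short _ (hdN y g hg) ?_⟩
      refine (hdn y g).trans ?_
      exact Nat.mul_le_mul (Nat.le_succ S) hn
    exact fun g hg => (this hg).2
  -- (2) the cocycle into `F / K` kills the commutator subgroup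
  have hc' := hc.map (QuotientGroup.mk' K)
  have h2 : ∀ g, ab m g = 1 → ∀ x, c x g ∈ K := by
    haveI := hc'.triv_normal
    intro g hg x
    have := ker_ab_le hc'.triv (by
      intro i j
      have hmem : FreeGroup.of i * FreeGroup.of j * (FreeGroup.of i)⁻¹ * (FreeGroup.of j)⁻¹ ∈ N := by
        rw [hN]
        have : ab m (FreeGroup.of i * FreeGroup.of j * (FreeGroup.of i)⁻¹ * (FreeGroup.of j)⁻¹)
            = 1 := by
          simp only [map_mul, map_inv]
          rw [mul_comm (ab m (FreeGroup.of i)) (ab m (FreeGroup.of j))]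
          group
        rw [this]
        exact L.zero_mem
      refine ⟨(QuotientGroup.eq_one_iff _).2 hmem, fun x => ?_⟩
      apply (QuotientGroup.eq_one_iff _).2
      refine mem_Kr (hcM x _ hmem) ((hcn x _).trans ?_)
      have e : (FreeGroup.of i * FreeGroup.of j * (FreeGroup.of i)⁻¹ *
          (FreeGroup.of j)⁻¹ : FreeGroup (Fin m)).norm ≤ 4 := by
        have a1 := FreeGroup.norm_mul_le (FreeGroup.of i * FreeGroup.of j * (FreeGroup.of i)⁻¹)
          (FreeGroup.of j)⁻¹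
        have a2 := FreeGroup.norm_mul_le (FreeGroup.of i * FreeGroup.of j) (FreeGroup.of i)⁻¹
        have a3 := FreeGroup.norm_mul_le (FreeGroup.of i) (FreeGroup.of j)
        simp only [FreeGroup.norm_inv_eq, FreeGroup.norm_of] at a1 a2 a3
        omega
      have := Nat.mul_le_mul_left S e
      omega) g hg
    exact (QuotientGroup.eq_one_iff _).1 (this.2 x)
  -- (3)
  have h3 : ∀ g y, QuotientGroup.mk' K (c (h y) (d y g)) =
      (QuotientGroup.mk' K (ε y))⁻¹ * QuotientGroup.mk' K g *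
        QuotientGroup.mk' K (ε (y * QuotientGroup.mk' M g)) := by
    refine (hd.comp hc' h hdh).ext
      (coc_cob (QuotientGroup.mk' M) (fun y => QuotientGroup.mk' K (ε y)) (QuotientGroup.mk' K)) ?_
    intro y j
    rw [← map_inv, ← map_mul, ← map_mul]
    apply QuotientGroup.eq.2
    apply mem_Kr
    · apply QuotientGroup.eq.1
      have e1 := hcf (h y) (d y (FreeGroup.of j))
      rw [hdh, ← hε2, ← hε2] at e1
      simp only [QuotientGroup.mk'_apply] at e1
      simp only [QuotientGroup.mk_mul, QuotientGroup.mk_inv, QuotientGroup.mk'_apply]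
      rw [mul_assoc y, mul_assoc y, mul_right_inj] at e1
      rw [mul_assoc, ← e1, inv_mul_cancel_left]
    · have a1 := FreeGroup.norm_mul_le (c (h y) (d y (FreeGroup.of j)))⁻¹
        ((ε y)⁻¹ * FreeGroup.of j * ε (y * QuotientGroup.mk' M (FreeGroup.of j)))
      have a2 := FreeGroup.norm_mul_le ((ε y)⁻¹ * FreeGroup.of j)
        (ε (y * QuotientGroup.mk' M (FreeGroup.of j)))
      have a3 := FreeGroup.norm_mul_le (ε y)⁻¹ (FreeGroup.of j)
      have a4 := hcn (h y) (d y (FreeGroup.of j))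
      have a5 := hdn y (FreeGroup.of j)
      have a6 := hε1 y
      have a7 := hε1 (y * QuotientGroup.mk' M (FreeGroup.of j))
      simp only [FreeGroup.norm_inv_eq, FreeGroup.norm_of, mul_one] at a1 a2 a3 a5
      have a8 := Nat.mul_le_mul_left S a5
      omega
  -- (4)
  have h4 : ∀ g x, ab m (d (f x) (c x g)) =
      (ab m (δ x))⁻¹ * ab m g * ab m (δ (x * QuotientGroup.mk' N g)) := by
    refine (hc.comp hd' f hcf).ext
      (coc_cob (QuotientGroup.mk' N) (fun x => ab m (δ x)) (ab m)) ?_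
    intro x i
    rw [← map_inv, ← map_mul, ← map_mul, ← inv_mul_eq_one, ← map_inv, ← map_mul]
    apply short
    · apply QuotientGroup.eq.1
      have e1 := hdh (f x) (c x (FreeGroup.of i))
      rw [hcf, ← hδ2, ← hδ2] at e1
      simp only [QuotientGroup.mk'_apply] at e1
      simp only [QuotientGroup.mk_mul, QuotientGroup.mk_inv, QuotientGroup.mk'_apply]
      rw [mul_assoc x, mul_assoc x, mul_right_inj] at e1
      rw [mul_assoc, ← e1, inv_mul_cancel_left]
    · have a1 := FreeGroup.norm_mul_le (d (f x) (c x (FreeGroup.of i)))⁻¹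
        ((δ x)⁻¹ * FreeGroup.of i * δ (x * QuotientGroup.mk' N (FreeGroup.of i)))
      have a2 := FreeGroup.norm_mul_le ((δ x)⁻¹ * FreeGroup.of i)
        (δ (x * QuotientGroup.mk' N (FreeGroup.of i)))
      have a3 := FreeGroup.norm_mul_le (δ x)⁻¹ (FreeGroup.of i)
      have a4 := hdn (f x) (c x (FreeGroup.of i))
      have a5 := hcn x (FreeGroup.of i)
      have a6 := hδ1 x
      have a7 := hδ1 (x * QuotientGroup.mk' N (FreeGroup.of i))
      simp only [FreeGroup.norm_inv_eq, FreeGroup.norm_of, mul_one] at a1 a2 a3 a5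
      have a8 := Nat.mul_le_mul_left S a5
      have a9 : r ≤ (S + 1) * r := Nat.le_mul_of_pos_left r (Nat.succ_pos S)
      omega
  refine ⟨fun a => (ab m (d (f 1) a)).toAdd, ?_, ?_, ?_, ?_, ?_⟩
  · intro a ha b
    have e : QuotientGroup.mk' M a = 1 := (QuotientGroup.eq_one_iff _).2 ha
    simp only
    rw [hd, e, mul_one, map_mul, toAdd_mul]
  · intro a ha
    constructor
    · intro h0
      have e0 : ab m (d (f 1) a) = 1 := Multiplicative.toAdd.injective h0
      have e1 := h3 a (f 1)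
      have e : QuotientGroup.mk' M a = 1 := (QuotientGroup.eq_one_iff _).2 ha
      have e2 : QuotientGroup.mk' K (c (h (f 1)) (d (f 1) a)) = 1 :=
        (QuotientGroup.eq_one_iff _).2 (h2 _ e0 _)
      rw [e2, e, mul_one] at e1
      have e3 : QuotientGroup.mk' K a = 1 := by
        have e4 : QuotientGroup.mk' K a = QuotientGroup.mk' K (ε (f 1)) *
            ((QuotientGroup.mk' K (ε (f 1)))⁻¹ * QuotientGroup.mk' K a *
              QuotientGroup.mk' K (ε (f 1))) * (QuotientGroup.mk' K (ε (f 1)))⁻¹ := by group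
        rw [e4, ← e1, mul_one, mul_inv_cancel]
      exact (QuotientGroup.eq_one_iff _).1 e3
    · intro hk
      simp only
      rw [h1 a hk, toAdd_one]
  · intro a ha
    exact (hN _).1 (hdN _ a ha)
  · intro l hl
    have hw : wd l ∈ N := by rw [hN, ab_wd]; exact hl
    refine ⟨c 1 (wd l), hcM 1 _ hw, ?_, (hcn _ _).trans (Nat.mul_le_mul_left S (norm_wd_le l))⟩
    have e : QuotientGroup.mk' N (wd l) = 1 := (QuotientGroup.eq_one_iff _).2 hw
    simp only
    rw [h4, e, mul_one, ab_wd, mul_comm (ab m (δ 1))⁻¹, mul_assoc, inv_mul_cancel, mul_one,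
      toAdd_ofAdd]
  · intro a
    exact (sup_ab_le _).trans (hdn _ a)

end Pool.Agent.H645Z.Box
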