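import Pool.Agent.H645Z.Box.Pieces
import Pool.Agent.H645Z.Box.Count

set_option autoImplicit false

namespace Pool.Agent.H645Z.Box

/-- a diagonally dominant integer matrix, as a linear map -/
def dom {m : ℕ} (R : ℕ) (E : Fin m × Fin m → ℤ) : (Fin m → ℤ) →ₗ[ℤ] (Fin m → ℤ) where
  toFun c := fun k => ((m + 1) * R : ℕ) * c k + ∑ j, c j * E (j, k)
  map_add' c c' := by
    funext k
    simp only [Pi.add_apply, add_mul, mul_add, Finset.sum_add_distrib]
    ring
  map_smul' t c := by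
    funext k
    simp only [Pi.smul_apply, smul_eq_mul, RingHom.id_apply, mul_add, Finset.mul_sum, mul_assoc]
    ring

theorem dom_apply {m : ℕ} (R : ℕ) (E : Fin m × Fin m → ℤ) (c : Fin m → ℤ) (k : Fin m) :
    dom R E c k = ((m + 1) * R : ℕ) * c k + ∑ j, c j * E (j, k) := rfl

theorem dom_low {m : ℕ} {R : ℕ} {E : Fin m × Fin m → ℤ} (hE : ∀ p, 0 ≤ E p ∧ E p < R)
    (c : Fin m → ℤ) : R * sup c ≤ sup (dom R E c) := by
  rcases Nat.eq_zero_or_pos m with rfl | hm
  · simp [sup]
  haveI : Nonempty (Fin m) := ⟨⟨0, hm⟩⟩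
  obtain ⟨k, -, hk⟩ := Finset.exists_mem_eq_sup Finset.univ Finset.univ_nonempty
    (fun i => (c i).natAbs)
  have hk' : sup c = (c k).natAbs := hk
  refine le_trans ?_ (le_sup _ k)
  have h1 : |∑ j, c j * E (j, k)| ≤ m * (R * (sup c : ℤ)) := by
    refine (Finset.abs_sum_le_sum_abs _ _).trans ?_
    calc ∑ j, |c j * E (j, k)| ≤ ∑ _j : Fin m, (R * (sup c : ℤ)) := by
          refine Finset.sum_le_sum fun j _ => ?_
          rw [abs_mul, mul_comm, abs_of_nonneg (hE _).1]
          have : |c j| ≤ (sup c : ℤ) := by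
            rw [← Int.natCast_natAbs]
            exact_mod_cast le_sup c j
          exact mul_le_mul (hE _).2.le this (abs_nonneg _) (by positivity)
      _ = _ := by simp
  have h2 : |(((m + 1) * R : ℕ) : ℤ) * c k| = (m + 1) * R * (sup c : ℤ) := by
    rw [abs_mul, hk', Int.natCast_natAbs, abs_of_nonneg (by positivity)]
    push_cast
    ring
  have h3 : |(((m + 1) * R : ℕ) : ℤ) * c k| ≤ |dom R E c k| + |∑ j, c j * E (j, k)| := by
    have : (((m + 1) * R : ℕ) : ℤ) * c k = dom R E c k - ∑ j, c j * E (j, k) := by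
      rw [dom_apply]
      ring
    rw [this]
    exact abs_sub _ _
  have h4 : ((R * sup c : ℕ) : ℤ) ≤ ((dom R E c k).natAbs : ℤ) := by
    rw [Int.natCast_natAbs]
    push_cast
    nlinarith
  exact_mod_cast h4

theorem sup_eq_zero {m : ℕ} {c : Fin m → ℤ} (h : sup c = 0) : c = 0 := by
  funext k
  have := le_sup c k
  rw [h] at this
  simpa using this

theorem dom_inj {m : ℕ} {R : ℕ} (hR : 1 ≤ R) {E : Fin m × Fin m → ℤ}
    (hE : ∀ p, 0 ≤ E p ∧ E p < R) : Function.Injective (dom R E) := by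
  rw [injective_iff_map_eq_zero]
  intro c hc
  have := dom_low hE c
  rw [hc, sup_zero, Nat.le_zero, Nat.mul_eq_zero] at this
  exact sup_eq_zero (this.resolve_left (by omega))

theorem dom_short {m : ℕ} {R : ℕ} {E : Fin m × Fin m → ℤ} (hE : ∀ p, 0 ≤ E p ∧ E p < R)
    (c : Fin m → ℤ) (h : sup (dom R E c) < R) : c = 0 := by
  have := dom_low hE c
  apply sup_eq_zero
  by_contra hne
  have h1 : R * 1 ≤ R * sup c := Nat.mul_le_mul_left R (Nat.one_le_iff_ne_zero.2 hne)
  omega

theorem dom_single {m : ℕ} (R : ℕ) (E : Fin m × Fin m → ℤ) (i k : Fin m) :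
    dom R E (Pi.single i 1) k = ((m + 1) * R : ℕ) * (Pi.single i 1 : Fin m → ℤ) k + E (i, k) := by
  rw [dom_apply]
  congr 1
  rw [Finset.sum_eq_single i]
  · simp
  · intro j _ hj
    simp [Pi.single_eq_of_ne hj]
  · simp

theorem ab_surj (m : ℕ) : Function.Surjective (ab m) := fun z => ⟨wd z.toAdd, ab_wd _⟩

/-- the normal subgroup attached to a matrix -/
def domN {m : ℕ} (R : ℕ) (E : Fin m × Fin m → ℤ) : Subgroup (FreeGroup (Fin m)) :=
  (AddSubgroup.toSubgroup (LinearMap.range (dom R E)).toAddSubgroup).comap (ab m)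

theorem mem_domN {m : ℕ} (R : ℕ) (E : Fin m × Fin m → ℤ) (g : FreeGroup (Fin m)) :
    g ∈ domN R E ↔ (ab m g).toAdd ∈ (LinearMap.range (dom R E)).toAddSubgroup := Iff.rfl

theorem domN_normal {m : ℕ} (R : ℕ) (E : Fin m × Fin m → ℤ) : (domN R E).Normal :=
  Subgroup.Normal.comap inferInstance _

theorem domN_fi {m : ℕ} {R : ℕ} (hR : 1 ≤ R) {E : Fin m × Fin m → ℤ}
    (hE : ∀ p, 0 ≤ E p ∧ E p < R) : (domN R E).FiniteIndex := by
  haveI : Finite ((Fin m → ℤ) ⧸ LinearMap.range (dom R E)) :=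
    Submodule.finiteQuotientOfFreeOfRankEq _ (LinearMap.finrank_range_of_inj (dom_inj hR hE))
  haveI : Finite ((Fin m → ℤ) ⧸ (LinearMap.range (dom R E)).toAddSubgroup) := this
  have h := AddSubgroup.finiteIndex_of_finite_quotient
    (H := (LinearMap.range (dom R E)).toAddSubgroup)
  constructor
  unfold domN
  rw [Subgroup.index_comap_of_surjective _ (ab_surj m), AddSubgroup.index_toSubgroup]
  exact h.index_ne_zero

theorem domN_inj {m : ℕ} {R : ℕ} {E E' : Fin m × Fin m → ℤ} (hE : ∀ p, 0 ≤ E p ∧ E p < R)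
    (hE' : ∀ p, 0 ≤ E' p ∧ E' p < R) (h : domN R E = domN R E') : E = E' := by
  funext ⟨i, k⟩
  have h1 : wd (dom R E' (Pi.single i 1)) ∈ domN R E' := by
    rw [mem_domN, ab_wd]
    exact ⟨_, rfl⟩
  rw [← h, mem_domN, ab_wd] at h1
  obtain ⟨c, hc⟩ := h1
  have hc' : dom R E c = dom R E' (Pi.single i 1) := hc
  have h2 : ∀ l, dom R E (c - Pi.single i 1) l = E' (i, l) - E (i, l) := by
    intro l
    rw [map_sub, hc', Pi.sub_apply, dom_single, dom_single]
    ring
  have hR : 0 < R := by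
    have := hE (i, k)
    omega
  have h3 : c - Pi.single i 1 = 0 := by
    apply dom_short hE
    refine lt_of_le_of_lt (sup_le (T := R - 1) fun l => ?_) (by omega)
    rw [h2]
    have := hE (i, l)
    have := hE' (i, l)
    omega
  have h4 := h2 k
  rw [h3, map_zero] at h4
  have h5 : (0 : ℤ) = E' (i, k) - E (i, k) := h4
  omega

theorem good_of_pair {S m n R r : ℕ} {E : Fin m × Fin m → ℤ} (hE : ∀ p, 0 ≤ E p ∧ E p < R)
    (N : Subgroup (FreeGroup (Fin m))) [N.Normal] (hN : N = domN R E)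
    (M : Subgroup (FreeGroup (Fin n))) [M.Normal] (hP : Pair S N M)
    (hr : S * S + 4 * S + 1 ≤ r) (hR : (S + 1) * r < R) : Good S m (Kr M r) M R := by
  have hinj := dom_inj (by omega) hE
  obtain ⟨η, h1, h2, h3, h4, h5⟩ := lift_main S N M hP (LinearMap.range (dom R E)).toAddSubgroup
    (fun g => by rw [hN, mem_domN]) r hr (by
      rintro l ⟨c, rfl⟩ hl
      rw [dom_short hE c (lt_of_le_of_lt hl hR), map_zero])
  have he : ∀ x ∈ M, dom R E (Function.invFun (dom R E) (η x)) = η x := fun x hx =>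
    Function.invFun_eq (h3 x hx)
  choose a ha1 ha2 ha3 using fun i => h4 (dom R E (Pi.single i 1)) ⟨_, rfl⟩
  refine ⟨Kr_le M r, fun x => Function.invFun (dom R E) (η x), a, ?_, ?_, ?_, ?_⟩
  · intro x hx y hy
    apply hinj
    rw [map_add, he x hx, he y hy, he _ (M.mul_mem hx hy), h1 x hx]
  · intro x hx
    rw [← h2 x hx, ← hinj.eq_iff, he x hx, map_zero]
  · intro i
    refine ⟨ha1 i, hinj (by rw [he _ (ha1 i), ha2]), (ha3 i).trans (Nat.mul_le_mul_left S ?_)⟩
    calc ∑ k, (dom R E (Pi.single i 1) k).natAbs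
        ≤ ∑ k : Fin m, ((if k = i then (m + 1) * R else 0) + R) := by
          refine Finset.sum_le_sum fun k _ => ?_
          rw [dom_single, Pi.single_apply]
          have := hE (i, k)
          split_ifs
          · omega
          · omega
      _ = (2 * m + 1) * R := by
          rw [Finset.sum_add_distrib, Finset.sum_ite_eq']
          simp
          ring
  · intro x hx
    refine (dom_low hE _).trans ?_
    rw [he x hx]
    exact h5 x

theorem not_ce2 {m n : ℕ} (hnm : n < m) {D : BoxPt m → BoxPt m → ℝ} {D' : BoxPt n → BoxPt n → ℝ}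
    (hD : IsBoxMetric m D) (hD' : IsBoxMetric n D') : ¬CE2 D D' := by
  classical
  intro hc
  obtain ⟨S, B, μ, hB, hμ, hP⟩ := pieces hD hD' hc
  obtain ⟨r, hr⟩ : ∃ r, r = S * S + 4 * S + 1 := ⟨_, rfl⟩
  choose C hC using fun Z : Finset (FreeGroup (Fin n)) =>
    count_good (S := S) hnm (Subgroup.normalClosure (Z : Set (FreeGroup (Fin n))))
  let P : Finset (Finset (FreeGroup (Fin n))) := (finite_norm_le (α := Fin n) r).toFinset.powerset
  obtain ⟨C₀, hC₀⟩ : ∃ C₀, C₀ = ∑ Z ∈ P, C Z := ⟨_, rfl⟩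
  obtain ⟨R, hR⟩ : ∃ R, R = C₀ + hB.toFinset.card + (S + 1) * r + 1 := ⟨_, rfl⟩
  have hR1 : 1 ≤ R := by omega
  let V : Finset (Fin m × Fin m → ℤ) := Fintype.piFinset fun _ => Finset.Ico (0 : ℤ) R
  have hV : ∀ E ∈ V, ∀ p, 0 ≤ E p ∧ E p < R := by
    intro E hE p
    simpa using Fintype.mem_piFinset.1 hE p
  have hVc : V.card = R ^ (m * m) := by
    simp [V, Fintype.card_piFinset]
  let ν : V → FN m := fun E => ⟨domN R E.1, domN_normal R E.1, domN_fi hR1 (hV E.1 E.2)⟩
  have hν : Function.Injective ν := by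
    intro E E' h
    exact Subtype.ext (domN_inj (hV _ E.2) (hV _ E'.2) (congrArg Subtype.val h))
  let U : Finset (FN m) := Finset.univ.image ν \ hB.toFinset
  have hU1 : R ^ (m * m) ≤ U.card + hB.toFinset.card := by
    have := Finset.le_card_sdiff hB.toFinset (Finset.univ.image ν)
    rw [Finset.card_image_of_injective _ hν, Finset.card_univ, Fintype.card_coe, hVc] at this
    simp only [U]
    omega
  have hUB : ∀ N ∈ U, N ∉ B := fun N hN => by simpa using (Finset.mem_sdiff.1 hN).2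
  let t : Finset (Subgroup (FreeGroup (Fin n))) := U.image fun N => (μ N).1
  have ht1 : t.card = U.card := by
    apply Finset.card_image_of_injOn
    intro N hN N' hN' h
    exact hμ (hUB N hN) (hUB N' hN') (Subtype.ext h)
  have ht2 : ∀ M ∈ t, M.Normal ∧ M.FiniteIndex ∧ Good S m (Kr M r) M R := by
    intro M hM
    obtain ⟨N, hN, rfl⟩ := Finset.mem_image.1 hM
    obtain ⟨E, -, rfl⟩ := Finset.mem_image.1 (Finset.mem_sdiff.1 hN).1
    exact ⟨(μ _).2.1, (μ _).2.2, @good_of_pair S m n R r E.1 (hV _ E.2) (ν E).1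
      (instNormalFN _) rfl _ _ (hP _ (hUB _ hN)) hr.ge (by omega)⟩
  let zz : Subgroup (FreeGroup (Fin n)) → Finset (FreeGroup (Fin n)) := fun M =>
    (finite_norm_le (α := Fin n) r).toFinset.filter fun g => g ∈ M
  have hzz : ∀ M, Kr M r = Subgroup.normalClosure (zz M : Set (FreeGroup (Fin n))) := by
    intro M
    unfold Kr
    congr 1
    ext g
    simp [zz, and_comm]
  have ht3 : t.card ≤ C₀ * R ^ (m * m - 1) := by
    rw [Finset.card_eq_sum_card_fiberwise (f := zz) (t := P)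
      (fun M _ => Finset.mem_powerset.2 (Finset.filter_subset _ _)), hC₀, Finset.sum_mul]
    refine Finset.sum_le_sum fun Z _ => hC Z R hR1 _ ?_
    intro M hM
    obtain ⟨h1, h2⟩ := Finset.mem_filter.1 hM
    rw [← h2, ← hzz]
    exact ht2 M h1
  have hmm : m * m = (m * m - 1) + 1 := by
    have : 0 < m * m := Nat.mul_pos (by omega) (by omega)
    omega
  have hpos : 1 ≤ R ^ (m * m - 1) := Nat.one_le_pow _ _ hR1
  rw [hmm, pow_succ] at hU1
  have h1 : R ^ (m * m - 1) * (C₀ + hB.toFinset.card + 1) ≤ R ^ (m * m - 1) * R :=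
    Nat.mul_le_mul_left _ (by omega)
  nlinarith

theorem main (n m : ℕ) (hnm : n ≠ m) (D : BoxPt n → BoxPt n → ℝ) (D' : BoxPt m → BoxPt m → ℝ)
    (hD : IsBoxMetric n D) (hD' : IsBoxMetric m D') (f : BoxPt n → BoxPt m) :
    ¬IsCoarseEquiv D D' f := by
  intro hf
  have hc := ce2_of hD hD' hf
  rcases lt_or_gt_of_ne hnm with h | h
  · exact not_ce2 h hD' hD hc.symm
  · exact not_ce2 h hD hD' hc

end Pool.Agent.H645Z.Box
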