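import Pool.Agent.H645Z.Box.Defs
import Pool.Agent.H645Z.Box.Lift

set_option autoImplicit false

namespace Pool.Agent.H645Z.Box

/-- symmetric uniform form of a coarse equivalence -/
def CE2 {X Y : Type} (D : X → X → ℝ) (D' : Y → Y → ℝ) : Prop :=
  ∃ (f : X → Y) (h : Y → X) (S : ℕ), (∀ x x', D x x' ≤ 1 → D' (f x) (f x') ≤ S) ∧
    (∀ y y', D' y y' ≤ 1 → D (h y) (h y') ≤ S) ∧ (∀ x, D x (h (f x)) ≤ S) ∧
    ∀ y, D' y (f (h y)) ≤ S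

theorem CE2.symm {X Y : Type} {D : X → X → ℝ} {D' : Y → Y → ℝ} (h : CE2 D D') : CE2 D' D := by
  obtain ⟨f, h, S, h1, h2, h3, h4⟩ := h
  exact ⟨h, f, S, h2, h1, h4, h3⟩

theorem IsBoxMetric.nonneg {k : ℕ} {D : BoxPt k → BoxPt k → ℝ} (h : IsBoxMetric k D)
    (p q : BoxPt k) : 0 ≤ D p q := by
  have h1 := h.triangle p q p
  rw [(h.eq_zero_iff p p).2 rfl, h.symm q p] at h1
  linarith

theorem ce2_of {m n : ℕ} {D : BoxPt m → BoxPt m → ℝ} {D' : BoxPt n → BoxPt n → ℝ}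
    (hD : IsBoxMetric m D) (hD' : IsBoxMetric n D') {f : BoxPt m → BoxPt n}
    (hf : IsCoarseEquiv D D' f) : CE2 D D' := by
  obtain ⟨ρm, ρp, -, hp, -, -, ht, hb, C, hC⟩ := hf
  choose h hh using hC
  obtain ⟨T, hT⟩ := Filter.eventually_atTop.1 (ht.eventually_gt_atTop (1 + 2 * |C|))
  have hlow : ∀ x x', D' (f x) (f x') ≤ 1 + 2 * |C| → D x x' ≤ T := by
    intro x x' hx
    by_contra hcon
    have h1 := hT _ (not_le.1 hcon).le
    have h2 := (hb x x').1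
    linarith
  obtain ⟨S, hS⟩ := exists_nat_ge (max (max (ρp 1) T) |C|)
  have hS1 : ρp 1 ≤ S := ((le_max_left _ _).trans (le_max_left _ _)).trans hS
  have hS2 : T ≤ S := ((le_max_right _ _).trans (le_max_left _ _)).trans hS
  have hS3 : |C| ≤ S := (le_max_right _ _).trans hS
  have hC0 := le_abs_self C
  have hC1 := abs_nonneg C
  refine ⟨f, h, S, ?_, ?_, ?_, ?_⟩
  · intro x x' hx
    exact (hb x x').2.trans ((hp (hD.nonneg x x') (Set.mem_Ici.2 zero_le_one) hx).trans hS1)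
  · intro y y' hy
    refine (hlow _ _ ?_).trans hS2
    have h1 := hD'.triangle (f (h y)) y (f (h y'))
    have h2 := hD'.triangle y y' (f (h y'))
    have h3 := hh y
    have h4 := hh y'
    rw [hD'.symm] at h4
    linarith
  · intro x
    refine (hlow _ _ ?_).trans hS2
    have h3 := hh (f x)
    rw [hD'.symm] at h3
    linarith
  · intro y
    have h3 := hh y
    rw [hD'.symm] at h3
    linarith

theorem wordDist_gen {k : ℕ} (N : FN k) (x : FreeGroup (Fin k) ⧸ N.1) (i : Fin k) :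
    wordDist N x (x * (FreeGroup.of i : FreeGroup (Fin k))) ≤ 1 :=
  Nat.sInf_le ⟨FreeGroup.of i, FreeGroup.norm_of i, rfl⟩

theorem wordDist_spec {k : ℕ} (N : FN k) (x y : FreeGroup (Fin k) ⧸ N.1) :
    ∃ w : FreeGroup (Fin k), w.norm = wordDist N x y ∧ x * (w : FreeGroup (Fin k) ⧸ N.1) = y := by
  have : {r : ℕ | ∃ w : FreeGroup (Fin k), w.norm = r ∧
      x * (w : FreeGroup (Fin k) ⧸ N.1) = y}.Nonempty := by
    obtain ⟨w, hw⟩ := QuotientGroup.mk_surjective (x⁻¹ * y)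
    exact ⟨_, w, rfl, by rw [hw, mul_inv_cancel_left]⟩
  exact Nat.sInf_mem this

theorem IsBoxMetric.word {k : ℕ} {D : BoxPt k → BoxPt k → ℝ} (h : IsBoxMetric k D) {N : FN k}
    {x y : FreeGroup (Fin k) ⧸ N.1} {S : ℕ} (hS : D ⟨N, x⟩ ⟨N, y⟩ ≤ S) :
    ∃ w : FreeGroup (Fin k), w.norm ≤ S ∧ x * (w : FreeGroup (Fin k) ⧸ N.1) = y := by
  obtain ⟨w, h1, h2⟩ := wordDist_spec N x y
  rw [h.piece] at hS
  exact ⟨w, h1 ▸ (by exact_mod_cast hS), h2⟩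

theorem IsBoxMetric.gen {k : ℕ} {D : BoxPt k → BoxPt k → ℝ} (h : IsBoxMetric k D) (N : FN k)
    (x : FreeGroup (Fin k) ⧸ N.1) (i : Fin k) :
    D ⟨N, x⟩ ⟨N, x * (FreeGroup.of i : FreeGroup (Fin k))⟩ ≤ 1 := by
  rw [h.piece]
  exact_mod_cast wordDist_gen N x i

theorem IsBoxMetric.exc {k : ℕ} {D : BoxPt k → BoxPt k → ℝ} (h : IsBoxMetric k D) (S : ℝ) :
    ∃ E : Set (FN k), E.Finite ∧ ∀ p q : BoxPt k, p.1 ∉ E → D p q ≤ S → q.1 = p.1 := by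
  refine ⟨_, (h.apart S).image Prod.fst, ?_⟩
  rintro ⟨N, x⟩ ⟨N', y⟩ hp hd
  by_contra hne
  exact hp ⟨(N, N'), ⟨fun e => hne e.symm, x, y, hd⟩, rfl⟩

theorem propagate {a b : ℕ} {D : BoxPt a → BoxPt a → ℝ} {D' : BoxPt b → BoxPt b → ℝ}
    (hD : IsBoxMetric a D) (hD' : IsBoxMetric b D') (f : BoxPt a → BoxPt b) (S : ℝ)
    (hf : ∀ x x', D x x' ≤ 1 → D' (f x) (f x') ≤ S) (E : Set (FN b))
    (hE : ∀ p q : BoxPt b, p.1 ∉ E → D' p q ≤ S → q.1 = p.1) (N : FN a) (M : FN b) (hM : M ∉ E)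
    (x₀ : FreeGroup (Fin a) ⧸ N.1) (h0 : (f ⟨N, x₀⟩).1 = M) :
    ∃ f' : FreeGroup (Fin a) ⧸ N.1 → FreeGroup (Fin b) ⧸ M.1, ∀ x, f ⟨N, x⟩ = ⟨M, f' x⟩ := by
  have key : ∀ (g : FreeGroup (Fin a)) (x : FreeGroup (Fin a) ⧸ N.1),
      (f ⟨N, x⟩).1 = M ↔ (f ⟨N, x * g⟩).1 = M := by
    intro g
    induction g using FreeGroup.induction_on with
    | C1 => intro x; simp
    | of i =>
      intro x
      have h1 := hf _ _ (hD.gen N x i)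
      constructor
      · intro h
        rw [hE _ _ (h ▸ hM) h1, h]
      · intro h
        rw [hD'.symm] at h1
        rw [hE _ _ (h ▸ hM) h1, h]
    | inv_of i ih =>
      intro x
      rw [ih (x * ((FreeGroup.of i)⁻¹ : FreeGroup (Fin a)))]
      simp
    | mul g g' ih ih' =>
      intro x
      rw [ih x, ih', QuotientGroup.mk_mul, mul_assoc]
  have h1 : ∀ x, ∃ y, f ⟨N, x⟩ = ⟨M, y⟩ := by
    intro x
    obtain ⟨w, hw⟩ := QuotientGroup.mk_surjective (x₀⁻¹ * x)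
    have h2 := (key w x₀).1 h0
    rw [hw, mul_inv_cancel_left] at h2
    generalize f ⟨N, x⟩ = p at h2
    obtain ⟨M', y⟩ := p
    simp only at h2
    subst h2
    exact ⟨y, rfl⟩
  choose f' hf' using h1
  exact ⟨f', hf'⟩

theorem pieces {m n : ℕ} {D : BoxPt m → BoxPt m → ℝ} {D' : BoxPt n → BoxPt n → ℝ}
    (hD : IsBoxMetric m D) (hD' : IsBoxMetric n D') (hc : CE2 D D') :
    ∃ (S : ℕ) (B : Set (FN m)) (μ : FN m → FN n), B.Finite ∧ Set.InjOn μ Bᶜ ∧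
      ∀ N, N ∉ B → Pair S N.1 (μ N).1 := by
  obtain ⟨f, h, S, h1, h2, h3, h4⟩ := hc
  obtain ⟨E, hE, hE'⟩ := hD.exc S
  obtain ⟨F, hF, hF'⟩ := hD'.exc S
  have hfin : {q : BoxPt n | q.1 ∈ F}.Finite := by
    have : {q : BoxPt n | q.1 ∈ F} ⊆ ⋃ M ∈ F, Set.range (Sigma.mk M) := by
      rintro ⟨M, y⟩ hq
      exact Set.mem_biUnion hq ⟨y, rfl⟩
    refine (hF.biUnion fun M _ => ?_).subset this
    haveI := M.2.2
    exact Set.finite_range _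
  have hback : ∀ N, N ∉ E → ∀ x, (h (f ⟨N, x⟩)).1 = N := fun N hN x => hE' ⟨N, x⟩ _ hN (h3 _)
  let B : Set (FN m) := E ∪ (fun q => (h q).1) '' {q : BoxPt n | q.1 ∈ F}
  have hB : ∀ N, N ∉ B → N ∉ E ∧ (f ⟨N, 1⟩).1 ∉ F := by
    intro N hN
    have hNE : N ∉ E := fun e => hN (Or.inl e)
    exact ⟨hNE, fun e => hN (Or.inr ⟨_, e, hback N hNE 1⟩)⟩
  have hmaps : ∀ N, N ∉ B → ∃ (f' : FreeGroup (Fin m) ⧸ N.1 → FreeGroup (Fin n) ⧸ (f ⟨N, 1⟩).1.1)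
      (h' : FreeGroup (Fin n) ⧸ (f ⟨N, 1⟩).1.1 → FreeGroup (Fin m) ⧸ N.1),
      (∀ x, f ⟨N, x⟩ = ⟨(f ⟨N, 1⟩).1, f' x⟩) ∧ ∀ y, h ⟨(f ⟨N, 1⟩).1, y⟩ = ⟨N, h' y⟩ := by
    intro N hN
    obtain ⟨f', hf'⟩ := propagate hD hD' f S h1 F hF' N _ (hB N hN).2 1 rfl
    obtain ⟨h', hh'⟩ := propagate hD' hD h S h2 E hE' (f ⟨N, 1⟩).1 N (hB N hN).1 (f ⟨N, 1⟩).2
      (hback N (hB N hN).1 1)
    exact ⟨f', h', hf', hh'⟩
  refine ⟨S, B, fun N => (f ⟨N, 1⟩).1, hE.union (hfin.image _), ?_, ?_⟩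
  · intro N hN N' hN' e
    obtain ⟨-, h', -, hh'⟩ := hmaps N hN
    obtain ⟨-, h'', -, hh''⟩ := hmaps N' hN'
    have e1 : (h ⟨(f ⟨N, 1⟩).1, 1⟩).1 = N := by rw [hh']
    have e2 : (h ⟨(f ⟨N', 1⟩).1, 1⟩).1 = N' := by rw [hh'']
    simp only at e
    rw [← e1, ← e2, e]
  · intro N hN
    obtain ⟨f', h', hf', hh'⟩ := hmaps N hN
    refine ⟨f', h', fun x i => hD'.word ?_, fun y j => hD.word ?_, fun x => hD.word ?_,
      fun y => hD'.word ?_⟩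
    · rw [← hf', ← hf']
      exact h1 _ _ (hD.gen N x i)
    · rw [← hh', ← hh']
      exact h2 _ _ (hD'.gen _ y j)
    · rw [← hh', ← hf']
      exact h3 _
    · rw [← hf', ← hh']
      exact h4 _

end Pool.Agent.H645Z.Box
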